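import Mathlib
import Pool.Agent.Helper97.RK.Stmts
import Pool.Agent.Helper17.R5.Sheet
import Pool.Agent.Helper17.RS.Sheet
import Pool.Agent.Helper13.R6.SheetA
import Pool.Agent.Helper13.R6.SheetB

/-! # Statements for `N_6(H) ≥ H ^ (1/3 - ε)` (MP_798d7d_nt, rank six): the family

FAMILY.  Binary quartics `g(x) = a x⁴ + b x³ + 3 c x² + d x + e` with six square values
`g(i) = y_i²`, `g(-i) = z_i²`, `i = 1, 2, 3`.  With `u_i = y_i - z_i`, `v_i = y_i + z_i` the only relation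
is `5 u₁ v₁ - 4 u₂ v₂ + u₃ v₃ = 0`; it is solved by the Plücker coordinates
`p_ij = s_i t_j - s_j t_i` of two vectors `(s₀, s⃗)`, `(t₀, t⃗)` of `ℤ⁴`:
`u = (p01, p02, 4 p03)`, `v = (4 p23, 5 p13, 5 p12)`.  Eight parameters of weight 1; `y`, `z` of
degree 2, `a, .., e` of degree 4, `A`, `B` of degrees 8 and 12.  With `s_i, t_i ∼ m` and `n = m²`
there are `m⁸ = n⁴` members, and by EX6 of `Pool.Helper13.R6` at most `n^(4+ε)` integral ternary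
forms with six square values at the nodes: most members have few integral points.
PARAMETERS: `w = ((X, Y), z)`, `X = s₀`, `Y = t₀`, `z = (s₁, s₂, s₃, t₁, t₂, t₃)`.
-/

set_option autoImplicit false

namespace Pool.Helper67.R6

open Pool.Agent.Helper97.RK (cur)
open Pool.Helper17.R5 (V3 TF tfa tfb tfh tfk tfd tfe ev pol disc det3 Ix)
open Pool.Helper17.RS (RS NR)
open Pool.Helper13.R6 (SN6)

/-! ## Definitions -/

section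
variable {R : Type*} [CommRing R]

/-- `u = (p01, p02, 4 p03)` -/
def U (w : (R × R) × (Fin 6 → R)) : Fin 3 → R :=
  ![w.1.1 * w.2 3 - w.2 0 * w.1.2, w.1.1 * w.2 4 - w.2 1 * w.1.2,
    4 * (w.1.1 * w.2 5 - w.2 2 * w.1.2)]

/-- `v = (4 p23, 5 p13, 5 p12)` -/
def V (z : Fin 6 → R) : Fin 3 → R :=
  ![4 * (z 1 * z 5 - z 2 * z 4), 5 * (z 0 * z 5 - z 2 * z 3), 5 * (z 0 * z 4 - z 1 * z 3)]

/-- `480 a`, `12 b`, `288 c`, `12 d`, `40 e` -/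
def qa (u v : Fin 3 → R) : R :=
  5 * (u 0 ^ 2 + v 0 ^ 2) - 8 * (u 1 ^ 2 + v 1 ^ 2) + 3 * (u 2 ^ 2 + v 2 ^ 2)
def qb (u v : Fin 3 → R) : R := u 1 * v 1 - 2 * (u 0 * v 0)
def qc (u v : Fin 3 → R) : R :=
  -13 * (u 0 ^ 2 + v 0 ^ 2) + 16 * (u 1 ^ 2 + v 1 ^ 2) - 3 * (u 2 ^ 2 + v 2 ^ 2)
def qd (u v : Fin 3 → R) : R := 8 * (u 0 * v 0) - u 1 * v 1
def qe (u v : Fin 3 → R) : R :=
  15 * (u 0 ^ 2 + v 0 ^ 2) - 6 * (u 1 ^ 2 + v 1 ^ 2) + (u 2 ^ 2 + v 2 ^ 2)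

/-- `- 691200 A` and `298598400 B` -/
def qA (u v : Fin 3 → R) : R := 144 * qa u v * qe u v - 4800 * qb u v * qd u v + 25 * qc u v ^ 2
def qB (u v : Fin 3 → R) : R :=
  4320 * qa u v * qd u v ^ 2 + 51840 * qe u v * qb u v ^ 2 - 7200 * qb u v * qc u v * qd u v -
    432 * qa u v * qc u v * qe u v + 25 * qc u v ^ 3
end

/-- integral parameters -/
abbrev Par : Type := (ℤ × ℤ) × (Fin 6 → ℤ)

def QQ : ℕ := 10000
def MM : ℤ := 14400 * (Nat.factorial QQ : ℤ)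

/-- the base `s = (1, -3, -1, 3)`, `t = (-1, -3, -3, 1)` -/
def zb : Fin 6 → ℤ := ![-3, -1, 3, -3, -3, 1]
def Cong (w : Par) : Prop := MM ∣ w.1.1 - 1 ∧ MM ∣ w.1.2 + 1 ∧ ∀ i, MM ∣ w.2 i - zb i

/-- the square roots `y₁, y₂, y₃, z₁, z₂, z₃` -/
def YY (w : Par) : Fin 6 → ℤ :=
  ![(U w 0 + V w.2 0) / 2, (U w 1 + V w.2 1) / 2, (U w 2 + V w.2 2) / 2,
    (V w.2 0 - U w 0) / 2, (V w.2 1 - U w 1) / 2, (V w.2 2 - U w 2) / 2]

def ca (w : Par) : ℤ := qa (U w) (V w.2) / 480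
def cb (w : Par) : ℤ := qb (U w) (V w.2) / 12
def cc (w : Par) : ℤ := qc (U w) (V w.2) / 288
def cd (w : Par) : ℤ := qd (U w) (V w.2) / 12
def ce (w : Par) : ℤ := qe (U w) (V w.2) / 40

def aA (w : Par) : ℤ := -(4 * ca w * ce w - cb w * cd w + 3 * cc w ^ 2)
def aB (w : Par) : ℤ := ca w * cd w ^ 2 + ce w * cb w ^ 2 - cb w * cd w * cc w -
  8 * ca w * cc w * ce w + 2 * cc w ^ 3

/-- the nodes `1, 2, 3, -1, -2, -3` and the point `∞` -/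
def xi : Fin 6 → ℤ := ![1, 2, 3, -1, -2, -3]
def vs (i : Fin 6) : V3 := (xi i ^ 2, xi i, 1)
def v7 : V3 := (1, 0, 0)

/-- the ternary form belonging to the abscissa `x` -/
def nf (w : Par) (x : ℤ) : TF := (ca w, cb w, 2 * cc w + x, cc w - x, cd w, ce w)

/-- the known points: `(ξ - η)²` times the abscissa -/
def xn (w : Par) (i j : Fin 6) (s : ℤ) : ℤ :=
  2 * ca w * xi i ^ 2 * xi j ^ 2 + cb w * xi i * xi j * (xi i + xi j) +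
    cc w * (xi i ^ 2 + 4 * xi i * xi j + xi j ^ 2) + cd w * (xi i + xi j) + 2 * ce w -
    2 * s * YY w i * YY w j
def xP (w : Par) (i j : Fin 6) (s : ℤ) : ℤ := xn w i j s / (xi i - xi j) ^ 2

/-- pairs of nodes of the same sign -/
def SP (i j : Fin 6) : Prop := i ≠ j ∧ ((i : ℕ) < 3 ↔ (j : ℕ) < 3)

/-- the Plücker coordinates `p01, p02, p03, p23, p13, p12` -/
def pp (w : Par) : Fin 6 → ℤ :=
  ![w.1.1 * w.2 3 - w.2 0 * w.1.2, w.1.1 * w.2 4 - w.2 1 * w.1.2, w.1.1 * w.2 5 - w.2 2 * w.1.2,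
    w.2 1 * w.2 5 - w.2 2 * w.2 4, w.2 0 * w.2 5 - w.2 2 * w.2 3, w.2 0 * w.2 4 - w.2 1 * w.2 3]

/-- the members of size `m` -/
def sh : Fin 6 → ℤ := ![1, 0, -1, 0, 1, 1]
def ww (m : ℕ) (T : (ℕ × ℕ) × (Fin 6 → ℕ)) : Par :=
  ((1 + MM * (T.1.1 : ℤ), -1 + MM * (T.1.2 : ℤ)),
    fun i => zb i + MM * (1000 * sh i * (m : ℤ) + (T.2 i : ℤ)))
def Box (m : ℕ) : Finset ((ℕ × ℕ) × (Fin 6 → ℕ)) :=
  (Finset.range m ×ˢ Finset.range m) ×ˢ Fintype.piFinset fun _ => Finset.range m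

/-! ## Algebra of the family -/

/-- REL: the divisions are exact, residues modulo `QQ !` (so modulo every prime `≤ QQ`), the values of
`nf w x`.  `2 y_i = u_i + v_i`, `2 z_i = v_i - u_i`; `MM = 14400 · QQ!` and `14400 / 480 = 30`,
`14400 / 288 = 50`, ..: `480 a ≡ 480 · 3` modulo `MM` and so on.  At the base
`u = (-6, -4, 16)`, `v = (32, 30, 30)`. -/
def ST_REL : Prop := ∀ w : Par, Cong w →
  (2 * YY w 0 = U w 0 + V w.2 0 ∧ 2 * YY w 1 = U w 1 + V w.2 1 ∧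
    2 * YY w 2 = U w 2 + V w.2 2 ∧ 2 * YY w 3 = V w.2 0 - U w 0 ∧
    2 * YY w 4 = V w.2 1 - U w 1 ∧ 2 * YY w 5 = V w.2 2 - U w 2) ∧
  (480 * ca w = qa (U w) (V w.2) ∧ 12 * cb w = qb (U w) (V w.2) ∧
    288 * cc w = qc (U w) (V w.2) ∧ 12 * cd w = qd (U w) (V w.2) ∧
    40 * ce w = qe (U w) (V w.2)) ∧
  ((∀ i, ((QQ.factorial : ℕ) : ℤ) ∣ YY w i - (![13, 13, 23, 19, 17, 7] : Fin 6 → ℤ) i) ∧
    ((QQ.factorial : ℕ) : ℤ) ∣ ca w - 3 ∧ ((QQ.factorial : ℕ) : ℤ) ∣ cb w - 22 ∧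
    ((QQ.factorial : ℕ) : ℤ) ∣ cc w + 9 ∧ ((QQ.factorial : ℕ) : ℤ) ∣ cd w + 118 ∧
    ((QQ.factorial : ℕ) : ℤ) ∣ ce w - 289) ∧
  (691200 * aA w = -qA (U w) (V w.2) ∧ 298598400 * aB w = qB (U w) (V w.2)) ∧
  ∀ x : ℤ, (∀ i, ev (nf w x) (vs i) = YY w i ^ 2) ∧ ev (nf w x) v7 = ca w ∧
    disc (nf w x) = x ^ 3 + aA w * x + aB w

/-- PTS (from REL): the known points lie on the curve.  With `N = nf w x`: `pol N (vs i) (vs j) =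
2 s y_i y_j`, so `(ξ_i - ξ_j)² disc N = (y_i pol N (vs j) v7 - s y_j pol N (vs i) v7)²` (Gram
determinant; `det3 (vs i) (vs j) v7 = ± (ξ_i - ξ_j)`), a polynomial identity.  At the end:
`D² Z = k²` gives `D ∣ k`. -/
def ST_PTS : Prop := ∀ w : Par, Cong w → ∀ i j : Fin 6, i ≠ j → ∀ s x : ℤ, (s = 1 ∨ s = -1) →
  (xi i - xi j) ^ 2 * x = xn w i j s → ∃ Y : ℤ, Y ^ 2 = x ^ 3 + aA w * x + aB w

/-- DIV (from REL): the twelve abscissae for the pairs of the same sign are integral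
(`(ξ - η)² ∈ {1, 4}`; at the base the abscissae for `(1, 3)` are `-93, 206`, for `(-1, -3)` they are
`94, 227`). -/
def ST_DIV : Prop := ∀ w : Par, Cong w → ∀ i j : Fin 6, SP i j → ∀ s : ℤ, (s = 1 ∨ s = -1) →
  (xi i - xi j) ^ 2 * xP w i j s = xn w i j s

/-- CERT (from REL, PTS).  Modulo every prime `q ≤ QQ`: `A ≡ -6307`, `B ≡ 219250` (coprime),
`4 A³ + 27 B² ≢ 0` for some small prime; `y ≡ (13, 13, 23, 19, 17, 7)`.
Rank: ST_RANK (proved in Helper16.RK) with the six points `(ξ_i, ξ_j, s)` and abscissae at the base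
`(1, 3, -1): 206`, `(1, -1, 1): 27`, `(1, -1, -1): 274`, `(1, -2, -1): 137`, `(2, 3, 1): -67`,
`(3, -3, -1): 43` (all numerators are divisible by `(ξ_i - ξ_j)²`, as at the base); no root
modulo 7; the characters `(q, e)`: `(5, 0): (+,-,+,-,-,-)`, `(13, 3): (-,-,-,+,-,+)`,
`(17, 16): (-,-,-,+,+,-)`, `(19, 2): (-,+,+,-,+,-)`, `(23, 7): (-,-,-,-,+,+)`,
`(29, 10): (+,-,-,-,-,+)` (nonsingular).  Compare `Helper16/R5/CERT.lean`. -/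
def ST_CERT : Prop := ∀ w : Par, Cong w →
  4 * aA w ^ 3 + 27 * aB w ^ 2 ≠ 0 ∧
  (∀ q : ℕ, q.Prime → q ≤ QQ → ¬ ((q : ℤ) ∣ aA w ∧ (q : ℤ) ∣ aB w)) ∧
  (∀ q : ℕ, q.Prime → q ≤ QQ → ∀ i j k : Fin 6, i ≠ j → i ≠ k → j ≠ k →
    ¬ ((q : ℤ) ∣ YY w i ∧ (q : ℤ) ∣ YY w j ∧ (q : ℤ) ∣ YY w k)) ∧
  (6 : Cardinal) ≤ Module.rank ℤ ((cur (aA w) (aB w)).toAffine).Point

/-- BND (from REL, DIV).  With `K = 1000`, `M = MM`: `p23, p13, p12 = M² K² m² (1 + O(2.1 / K))`,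
`|p01|, |p02|, |p03| ≤ 2.1 M² K m²`; so `v_i > |u_i|` and
`480 a ≤ M⁴ K⁴ m⁴ (5 · 16 - 8 · 25 + 3 · 25 + 3) < 0`. -/
def ST_BND : Prop := ∃ C : ℕ, 1 ≤ C ∧ ∀ m : ℕ, 1 ≤ m → ∀ T ∈ Box m,
  Cong (ww m T) ∧ (∀ i, 0 < YY (ww m T) i ∧ YY (ww m T) i ≤ C * (m : ℤ) ^ 2) ∧
  (|ca (ww m T)| ≤ C * (m : ℤ) ^ 4 ∧ |cb (ww m T)| ≤ C * (m : ℤ) ^ 4 ∧
    |cc (ww m T)| ≤ C * (m : ℤ) ^ 4 ∧ |cd (ww m T)| ≤ C * (m : ℤ) ^ 4 ∧
    |ce (ww m T)| ≤ C * (m : ℤ) ^ 4) ∧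
  ca (ww m T) ≤ -(m : ℤ) ^ 4 ∧
  (∀ i j s, SP i j → (s = 1 ∨ s = -1) → |xP (ww m T) i j s| ≤ C * (m : ℤ) ^ 4) ∧
  |aA (ww m T)| ≤ C * (m : ℤ) ^ 8 ∧ |aB (ww m T)| ≤ C * (m : ℤ) ^ 12

/-- INJ.  Two members with the same Plücker coordinates, `s ∧ t = s' ∧ t'`, are equal if only 2 divides all
`p_ij`.  `4 ∤ p01` (`p01 ≡ -6` modulo `MM`), so `2 = ∑ c_ij p_ij`.  From
`s'_i p_jk - s'_j p_ik + s'_k p_ij = 0` (`s' ∧ (s' ∧ t') = 0`): `p_ij s'_k = s_k (s'_i t_j - s'_j t_i) +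
t_k (s_i s'_j - s_j s'_i)`.  So `2 s' = α s + β t` with integers `α, β`; the coordinates 1
(`s₁, s'₁ ∈ M K m (1 + [0, 1.1/K])`, `0 ≤ t₁ + 3 ≤ M m`) and 2 (`s₂`, `s'₂` small, `t₂ ∼ M K m`) give
`β = 0`, `α = 2`.  In the same way `2 t' = γ s + δ t`, `γ = 0`, `δ = 2`. -/
def ST_INJ : Prop := ∀ m : ℕ, 1 ≤ m → ∀ T ∈ Box m, ∀ T' ∈ Box m, pp (ww m T) = pp (ww m T') →
  (∀ q : ℕ, q.Prime → 2 < q → ∃ i, ¬ (q : ℤ) ∣ pp (ww m T) i) → T = T'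

/-- MULT (from INJ, REL, DIV, BND): the twelve abscissae determine the member:
`xn w i j (-1) - xn w i j 1 = 4 y_i y_j`, so `y₁ y₂, y₂ y₃, y₁ y₃` and so (positivity) the `y`, the `z`;
`u, v`, `pp`. -/
def ST_MULT : Prop := ∀ m : ℕ, 1 ≤ m → ∀ T ∈ Box m, ∀ T' ∈ Box m,
  (∀ q : ℕ, q.Prime → 2 < q → ∃ i, ¬ (q : ℤ) ∣ pp (ww m T) i) →
  (∀ i j s, SP i j → (s = 1 ∨ s = -1) → xP (ww m T) i j s = xP (ww m T') i j s) → T = T'

/-! ## Sieve -/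

/-- the box member is good: no large prime divides `A` and `B`, or two roots belonging to
nodes `ξ ≠ ± η` -/
def Gd (C m : ℕ) (T : (ℕ × ℕ) × (Fin 6 → ℕ)) : Prop := ∀ q : ℕ, q.Prime → QQ < q →
  q ≤ C * m ^ 2 → ¬ ((q : ℤ) ∣ aA (ww m T) ∧ (q : ℤ) ∣ aB (ww m T)) ∧
    ∀ i j : Fin 6, (i : ℕ) % 3 ≠ (j : ℕ) % 3 →
      ¬ ((q : ℤ) ∣ YY (ww m T) i ∧ (q : ℤ) ∣ YY (ww m T) j)

/-- `f` agrees on `Z` with a polynomial of degree `≤ k` -/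
def PD {F : Type} [Field F] (Z : Finset (F × F)) (k : ℕ) (f : F × F → F) : Prop :=
  ∃ P : MvPolynomial (Fin 2) F, P.totalDegree ≤ k ∧
    ∀ z ∈ Z, f z = MvPolynomial.eval ![z.1, z.2] P

/-- binary quadratic forms and their resultant -/
def bf {F : Type} [Field F] (f : Fin 3 → F) (z : F × F) : F :=
  f 0 * z.1 ^ 2 + f 1 * z.1 * z.2 + f 2 * z.2 ^ 2
def rs {F : Type} [Field F] (f g : Fin 3 → F) : F :=
  (f 0 * g 2 - f 2 * g 0) ^ 2 - (f 0 * g 1 - f 1 * g 0) * (f 1 * g 2 - f 2 * g 1)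

/-- PDZ: if the monomials of degree `k + 1` are of degree `≤ k` on `Z` then all functions on `Z` are
of degree `≤ k` (the space is stable under `X`, `Y`; Lagrange interpolation), so
`|Z| ≤ (k + 1) (k + 2) / 2` (dimension of the functions). -/
def ST_PDZ : Prop := ∀ (F : Type) [Field F] (Z : Finset (F × F)) (k : ℕ),
  (∀ i j : ℕ, i + j = k + 1 → PD Z k (fun z => z.1 ^ i * z.2 ^ j)) →
  Z.card ≤ (k + 1) * (k + 2) / 2

/-- SYL: the Sylvester matrix of two binary quadratic forms. -/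
def ST_SYL : Prop := ∀ (F : Type) [Field F] (f g : Fin 3 → F), rs f g ≠ 0 →
  ∀ i j : ℕ, i + j = 3 → ∃ l0 l1 m0 m1 : F, ∀ z : F × F,
    z.1 ^ i * z.2 ^ j = (l0 * z.1 + l1 * z.2) * bf f z + (m0 * z.1 + m1 * z.2) * bf g z

/-- DEG (from SYL): a monomial of degree 6 is (cubic)·(cubic) `= (l f + l' g) (l'' f + l''' h) =
(degree 4) f + (degree 2) g h`; a monomial of degree 18 is the product of three of these; the four
terms contain `f³`, `f (g h)`, `f (g h)`, `(g h)²`. -/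
def ST_DEG : Prop := ∀ (F : Type) [Field F] (Z : Finset (F × F)) (f g h : Fin 3 → F),
  rs f g ≠ 0 → rs f h ≠ 0 → PD Z 5 (fun z => bf f z ^ 3) →
  PD Z 5 (fun z => bf f z * (bf g z * bf h z)) → PD Z 7 (fun z => (bf g z * bf h z) ^ 2) →
  ∀ i j : ℕ, i + j = 18 → PD Z 17 (fun z => z.1 ^ i * z.2 ^ j)

/-- the exceptional `v` (the line `5 v₁ u₁ - 4 v₂ u₂ + v₃ u₃ = 0` contains a common zero of the
conics `c, a`, i.e. `(1, ± 1, ± 1)`, or of `c, e`, i.e. `(1, ± 4, ± 9)`) -/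
def EX {F : Type} [Field F] (v : Fin 3 → F) : Prop := ∃ ε δ : F, (ε = 1 ∨ ε = -1) ∧
  (δ = 1 ∨ δ = -1) ∧ (5 * v 0 + 4 * ε * v 1 + δ * v 2 = 0 ∨
    5 * v 0 + 16 * ε * v 1 + 9 * δ * v 2 = 0)

/-- SVA (from PDZ, DEG): for `z` not exceptional at most 171 values of `(X, Y)`.
The quadratic parts in `(X, Y)` of `qc, qa, qe` are `f = (-13, 16, -48)`, `g = (5, -8, 48)`,
`h = (15, -6, 16)` (coefficients of `(X t_i - s_i Y)²`, `s = z 0, z 1, z 2`, `t = z 3, z 4, z 5`), and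
`625 rs f g = 576 ∏ (5 v₁ ± 4 v₂ ± v₃)`, `625 rs f h = 4 ∏ (5 v₁ ± 16 v₂ ± 9 v₃)`
(`v = V z`; `5, 4` cancel).  On `Z`:
`5 qc³ = 1080 qb qc qd - 216 qa qd² - 2592 qe qb²` (twenty times the difference is `qB + 3 qc qA`;
`qb, qd` are linear in `(X, Y)`), so `qc³` has degree `≤ 4`; `144 qa qe = 4800 qb qd - 25 qc²`, so
`qc qa qe` has degree `≤ 4`, and `(qa qe)²` has degree `≤ 6`; the same for the quadratic parts (the
differences have lower degree). -/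
def ST_SVA : Prop := ∀ (F : Type) [Field F], (30 : F) ≠ 0 → ∀ z : Fin 6 → F, ¬ EX (V z) →
  ∀ Z : Finset (F × F), (∀ p ∈ Z, qA (U (p, z)) (V z) = 0 ∧ qB (U (p, z)) (V z) = 0) →
  Z.card ≤ 171

/-- SVB: for `V z ≠ 0` the zeros `(X, Y)` lie on a curve of degree 6: the polynomial
`5 qc³ - 1080 qb qc qd + 216 qa qd² + 2592 qe qb²` with leading form `5 f³`; `f ≠ 0` because
`(X, Y) ↦ U` is injective and the ternary form `(-13, 16, -3)` vanishes on no plane. -/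
def ST_SVB : Prop := ∀ (F : Type) [Field F], (30 : F) ≠ 0 → (13 : F) ≠ 0 → ∀ z : Fin 6 → F,
  V z ≠ 0 → ∃ P : MvPolynomial (Fin 2) F, P ≠ 0 ∧ P.totalDegree ≤ 6 ∧ ∀ X Y : F,
    qA (U ((X, Y), z)) (V z) = 0 → qB (U ((X, Y), z)) (V z) = 0 →
    MvPolynomial.eval ![X, Y] P = 0

/-- RCL: residues of an arithmetic progression. -/
def ST_RCL : Prop := ∀ (q m : ℕ) (c d : ℤ), q.Prime → ¬ (q : ℤ) ∣ d → ∀ r : ZMod q,
  ((Finset.range m).filter (fun t : ℕ => ((c + d * (t : ℤ) : ℤ) : ZMod q) = r)).card ≤ m / q + 1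

open Classical in
/-- SZ: zeros of a polynomial in two variables in a box (`h = m / q + 1`). -/
def ST_SZ : Prop := ∀ (F : Type) [Field F] (m h d : ℕ) (x y : ℕ → F),
  (∀ r, ((Finset.range m).filter (fun t => x t = r)).card ≤ h) →
  (∀ r, ((Finset.range m).filter (fun t => y t = r)).card ≤ h) →
  ∀ P : MvPolynomial (Fin 2) F, P ≠ 0 → P.totalDegree ≤ d →
  ((Finset.range m ×ˢ Finset.range m).filter
    (fun t => MvPolynomial.eval ![x t.1, y t.2] P = 0)).card ≤ d * m * h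

open Classical in
/-- SVC: exceptional `z` in the box.  First part: for `20 p23 + ..`: with `λ₁ p23 + λ₂ p13 + λ₃ p12`
(`λ` units), given `z 0, .., z 4`: the coefficient of `z 5` is `λ₁ z 1 + λ₂ z 0`; if it is zero,
`z 1` is determined by `z 0`: `2 m⁵ h` for each of the 8 forms.  Second part: `V z = 0`: the three minors
vanish; if some `z i ≠ 0` (`i = 0, 1, 2`) two of the `z 3, z 4, z 5` are determined by the rest (`3 m⁴ h²`); if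
all are zero `m³ h³ ≤ m⁴ h²`. -/
def ST_SVC : Prop := ∀ (F : Type) [Field F], (30 : F) ≠ 0 → ∀ (m h : ℕ) (x : Fin 6 → ℕ → F),
  h ≤ m → (∀ i r, ((Finset.range m).filter (fun t => x i t = r)).card ≤ h) →
  ((Fintype.piFinset fun _ : Fin 6 => Finset.range m).filter
    (fun t => EX (V fun i => x i (t i)))).card ≤ 16 * m ^ 5 * h ∧
  ((Fintype.piFinset fun _ : Fin 6 => Finset.range m).filter
    (fun t => V (fun i => x i (t i)) = 0)).card ≤ 4 * m ^ 4 * h ^ 2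

open Classical in
/-- SVT: the pairs of roots, for indices `i ≠ j` (`U i = ε V i`, `U j = δ V j`).  If
`p_ij := z i z (j+3) - z j z (i+3) ≠ 0`: one `(X, Y)`: `m⁶ h²`.  If `p_ij = 0` and
`(z i, z (i+3)) ≠ 0`: `2 m⁵ h` values of `z`, and `m h` of `(X, Y)` (a line).  If
`z i = z (i+3) = 0`: `m⁴ h²` values of `z`. -/
def ST_SVT : Prop := ∀ (F : Type) [Field F], (30 : F) ≠ 0 → ∀ (m h : ℕ) (X Y : ℕ → F)
  (x : Fin 6 → ℕ → F), h ≤ m → (∀ r, ((Finset.range m).filter (fun t => X t = r)).card ≤ h) →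
  (∀ r, ((Finset.range m).filter (fun t => Y t = r)).card ≤ h) →
  (∀ i r, ((Finset.range m).filter (fun t => x i t = r)).card ≤ h) →
  ∀ (i j : Fin 3) (ε δ : F), i ≠ j → (ε = 1 ∨ ε = -1) → (δ = 1 ∨ δ = -1) →
  ((Box m).filter (fun T =>
    U ((X T.1.1, Y T.1.2), fun k => x k (T.2 k)) i = ε * V (fun k => x k (T.2 k)) i ∧
    U ((X T.1.1, Y T.1.2), fun k => x k (T.2 k)) j = δ * V (fun k => x k (T.2 k)) j)).card ≤
    4 * m ^ 6 * h ^ 2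

open Classical in
/-- SVD (from REL, RCL, SVA, SVB, SZ, SVC): one prime.  `h = m / q + 1 ≤ m`.  Given `T.2` (`z` modulo `q`):
not exceptional: `171 h²`; exceptional (`16 m⁵ h`) and `V z ≠ 0`: `6 m h`; `V z = 0` (`4 m⁴ h²`):
`m²`.  Total `(171 + 96 + 4) m⁶ h²`. -/
def ST_SVD : Prop := ∀ m q : ℕ, 1 ≤ m → q.Prime → QQ < q →
  ((Box m).filter (fun T => (q : ℤ) ∣ aA (ww m T) ∧ (q : ℤ) ∣ aB (ww m T))).card ≤
    300 * m ^ 6 * (m / q + 1) ^ 2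

open Classical in
/-- SVE (from REL, RCL, SVT): 12 choices of `{i, j}, ε, δ`. -/
def ST_SVE : Prop := ∀ m q : ℕ, 1 ≤ m → q.Prime → QQ < q →
  ((Box m).filter (fun T => ∃ i j : Fin 6, (i : ℕ) % 3 ≠ (j : ℕ) % 3 ∧
    (q : ℤ) ∣ YY (ww m T) i ∧ (q : ℤ) ∣ YY (ww m T) j)).card ≤ 60 * m ^ 6 * (m / q + 1) ^ 2

open Classical in
/-- SIEVE (from SVD, SVE): sum over the primes `QQ < q ≤ C m²`: for `q ≤ m` at most
`360 · 4 m⁸ / q²`, sum `≤ 1440 m⁸ / 10000`; for `q > m` at most `360 m⁶` each, and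
`π(C m²) ≤ m² / 1440` for `m` large (`Chebyshev.eventually_primeCounting_le` of Mathlib). -/
def ST_SIEVE : Prop := ∀ C : ℕ, ∃ m0 : ℕ, ∀ m : ℕ, m0 ≤ m →
  2 * ((Box m).filter (fun T => ¬ Gd C m T)).card ≤ m ^ 8

/-- GOOD (from REL, CERT, BND): consequences of `Gd`.  Reduced: a prime `q` with `q⁴ ∣ A`, `q⁶ ∣ B` is
`> QQ` (CERT) and `≤ C m²` (otherwise `A = B = 0`).  Three distinct nodes contain two with `ξ ≠ ± η`;
a prime dividing the three roots is `≤ C m²`.  A prime `q > 2` dividing all `p_ij` divides all `u`, `v`,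
so all roots. -/
def ST_GOOD : Prop := ∃ C0 : ℕ, ∀ C : ℕ, C0 ≤ C → ∀ m : ℕ, 1 ≤ m → ∀ T ∈ Box m, Gd C m T →
  (∀ q : ℕ, q.Prime → ¬ ((q : ℤ) ^ 4 ∣ aA (ww m T) ∧ (q : ℤ) ^ 6 ∣ aB (ww m T))) ∧
  (∀ (n : ℤ) (i j k : Fin 6), i ≠ j → i ≠ k → j ≠ k → n ∣ YY (ww m T) i → n ∣ YY (ww m T) j →
    n ∣ YY (ww m T) k → |n| ≤ 1) ∧
  (∀ q : ℕ, q.Prime → 2 < q → ∃ i, ¬ (q : ℤ) ∣ pp (ww m T) i)

/-! ## Counting -/

/-- the result of `Pool.Helper13.R6` (EX6 for our nodes, `G = 1`) -/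
def ST_EX : Prop := ∀ (C : ℤ) (ε : ℝ), 0 < ε → ∃ D : ℝ, 0 < D ∧ ∀ n : ℕ, 1 ≤ n →
  (SN6 vs v7 C 1 n).Finite ∧ ((SN6 vs v7 C 1 n).ncard : ℝ) ≤ D * (n : ℝ) ^ (4 + ε)

/-- EXN: `Nodes vs` holds (Vandermonde), so EX follows from EX6. -/
def ST_EXN : Prop := Pool.Helper13.R6.ST_EX6 → ST_EX

/-- FOR (from REL, INJ, BND): the form determines the member and the abscissa (`c = (h + k) / 3`; the
squares of the roots are the values, the roots are positive), and all but at most 33 abscissae `x` of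
integral points give a form of `SN6` (3 zeros of the cubic; `pol (nf w x) (vs i) (vs j)` is
linear in `x` with leading coefficient `- (ξ_i - ξ_j)²`: 2 values for each of the 15 pairs). -/
def ST_FOR : Prop := ∀ C : ℕ, ∃ C' : ℤ, ∀ m : ℕ, 1 ≤ m → ∀ T ∈ Box m,
  (∀ (n : ℤ) (i j k : Fin 6), i ≠ j → i ≠ k → j ≠ k → n ∣ YY (ww m T) i → n ∣ YY (ww m T) j →
    n ∣ YY (ww m T) k → |n| ≤ 1) →
  (∀ q : ℕ, q.Prime → 2 < q → ∃ i, ¬ (q : ℤ) ∣ pp (ww m T) i) →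
  (∃ S : Finset ℤ, S.card ≤ 33 ∧ ∀ x : ℤ, |x| ≤ C * (m : ℤ) ^ 4 → x ∉ S →
    (∃ Y : ℤ, Y ^ 2 = x ^ 3 + aA (ww m T) * x + aB (ww m T)) →
    nf (ww m T) x ∈ SN6 vs v7 C' 1 (m ^ 2)) ∧
  ∀ T' ∈ Box m, ∀ x x' : ℤ, nf (ww m T) x = nf (ww m T') x' → T = T' ∧ x = x'

open Classical in
/-- LINK (from EX, FOR, GOOD): the average of `Ix` over the good members. -/
def ST_LINK : Prop := ∀ C : ℕ, ∃ C1 : ℕ, ∀ C2 : ℕ, C1 ≤ C2 → ∀ ε : ℝ, 0 < ε →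
  ∃ D : ℝ, 0 < D ∧ ∀ m : ℕ, 1 ≤ m →
  ∑ T ∈ (Box m).filter (fun T => Gd C2 m T),
    (Ix C (m ^ 2) (aA (ww m T)) (aB (ww m T)) : ℝ) ≤ D * (m : ℝ) ^ (8 + ε)

/-- FIN1 (from CERT, SIEVE, GOOD, MULT, PTS, DIV, BND, LINK).  At least half of `Box m` is good; for all
but `m⁸ / 4` of these `Ix ≤ 4 D m^ε'`; each pair `(A, B)` is taken at most `(4 D m^ε')^12` times. -/
def ST_FIN1 : Prop := ∃ C : ℤ, 1 ≤ C ∧ ∀ ε : ℝ, 0 < ε → ∃ c : ℝ, 0 < c ∧ ∃ m0 : ℕ, ∀ m : ℕ,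
  m0 ≤ m → c * (m : ℝ) ^ (8 - ε) ≤ ((RS 6 C (m ^ 2)).ncard : ℝ)

/-- FIN (from FIN1 and ST_GEN of `Pool.Helper17.RS`, `m = ⌊√N⌋`, `e = 4 - ε`). -/
def ST_FIN : Prop := ∀ ε : ℝ, 0 < ε → ∃ H₀ : ℝ, ∀ H : ℝ, H₀ ≤ H →
  H ^ ((1 : ℝ) / 3 - ε) ≤ (NR 6 H : ℝ)

end Pool.Helper67.R6
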