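import Pool.Agent.Helper9.R6.LINK
import Pool.Agent.Helper13.R6.All
import Pool.Agent.Helper13.R6.FOR
import Pool.Agent.Helper16.RK.HOM
import Pool.Agent.Helper16.RK.PAD
import Pool.Agent.Helper16.RK.LIN
import Pool.Agent.Helper16.RK.RANK
import Pool.Agent.Helper17.R6.FIN
import Pool.Agent.Helper25.R6.INJ
import Pool.Agent.Helper25.R6.MULT
import Pool.Agent.Helper25.R6.SVT
import Pool.Agent.Helper30.R6.REL
import Pool.Agent.Helper34.R6.DIV
import Pool.Agent.Helper34.R6.PTS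
import Pool.Agent.Helper34.R6.SVA
import Pool.Agent.Helper44.R6.DEG
import Pool.Agent.Helper44.R6.SYL
import Pool.Agent.Helper46.R6.RCL
import Pool.Agent.Helper46.R6.SZ
import Pool.Agent.Helper51.R6F.GOOD
import Pool.Agent.Helper52.R6.SVD
import Pool.Agent.Helper58.RS.GEN
import Pool.Agent.Helper61.R6.FIN1
import Pool.Agent.Helper63.R6.PDZ
import Pool.Agent.Helper73.R6.SVB
import Pool.Agent.Helper74.R6.SVC
import Pool.Agent.Helper76.R6.FCERT
import Pool.Agent.Helper76.R6.SVE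
import Pool.Agent.Helper84.R6.BND
import Pool.Agent.Helper89.R6.SIEVE

/-! Assembly for `N_6(H) ≥ H ^ (1/3 - ε)` (MP_798d7d_nt, rank six): all rows of `Fam.lean`. -/

set_option autoImplicit false

namespace Pool.Helper67.R6

theorem all_BND : ST_BND := st_BND st_REL (st_DIV st_REL)

theorem all_CERT : ST_CERT :=
  st_CERT (Pool.Agent.Helper97.RK.st_RANK Pool.Agent.Helper97.RK.st_HOM
    Pool.Agent.Helper97.RK.st_PAD Pool.Agent.Helper97.RK.st_LIN) st_REL (st_PTS st_REL)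

theorem all_SVD : ST_SVD :=
  st_SVD st_REL st_RCL (st_SVA st_PDZ (st_DEG st_SYL)) st_SVB st_SZ st_SVC

theorem all_SVE : ST_SVE := st_SVE st_REL st_RCL st_SVT

theorem all_GOOD : ST_GOOD := st_GOOD st_REL all_CERT all_BND

theorem all_LINK : ST_LINK :=
  st_LINK (st_EXN Pool.Helper13.R6.all_EX6) (st_FOR st_REL st_INJ all_BND) all_GOOD

theorem all_FIN1 : ST_FIN1 :=
  st_FIN1 all_CERT (st_SIEVE all_SVD all_SVE) all_GOOD
    (st_MULT st_INJ st_REL (st_DIV st_REL) all_BND) (st_PTS st_REL) (st_DIV st_REL) all_BND all_LINK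

/-- `N_6(H) ≥ H ^ (1/3 - ε)` for `H` large. -/
theorem rank_six : ST_FIN := st_FIN all_FIN1 Pool.Helper17.RS.st_GEN

end Pool.Helper67.R6
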